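import Pool.Agent.Helper206.Spiral.GeomDefs

/-!
# Riemannian planes and geodesic nets: definitions

`ZeroCurv.brioschi E F G` is Brioschi's formula for the Gauss curvature of the metric
`E dx² + 2 F dx dy + G dy²`; `ZeroCurv.GeodAt E F G c t` says that `c` is a unit speed geodesic
of this metric at the time `t`.
-/

open MeasureTheory Set

namespace Q195.Tripod

/-- A Riemannian plane: `ℝ²` with the smooth Riemannian metric `E dx² + 2 F dx dy + G dy²`. -/
structure RPlane where
  /-- the coefficient of `dx²` -/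
  E : ℝ × ℝ → ℝ
  /-- the coefficient of `2 dx dy` -/
  F : ℝ × ℝ → ℝ
  /-- the coefficient of `dy²` -/
  G : ℝ × ℝ → ℝ
  smoothE : ContDiff ℝ (⊤ : ℕ∞) E
  smoothF : ContDiff ℝ (⊤ : ℕ∞) F
  smoothG : ContDiff ℝ (⊤ : ℕ∞) G
  posE : ∀ z, 0 < E z
  posdet : ∀ z, 0 < E z * G z - F z ^ 2

/-- The total positive curvature `∫ K⁺ dA`, in `[0, ∞]`. -/
noncomputable def RPlane.totalPosCurv (g : RPlane) : ENNReal :=
  ∫⁻ z : ℝ × ℝ, ENNReal.ofReal
    (max (ZeroCurv.brioschi g.E g.F g.G z) 0 * Real.sqrt (g.E z * g.G z - g.F z ^ 2))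

/-- The metric is bounded below by a positive multiple of the Euclidean one (in particular it is
complete). -/
def RPlane.BoundedBelow (g : RPlane) : Prop :=
  ∃ k : ℝ, 0 < k ∧ ∀ (z : ℝ × ℝ) (v w : ℝ),
    k * (v ^ 2 + w ^ 2) ≤ g.E z * v ^ 2 + 2 * g.F z * (v * w) + g.G z * w ^ 2

/-- A geodesic net in a Riemannian plane, all whose edges have multiplicity one. -/
structure GeodesicNet (g : RPlane) where
  /-- the vertices -/
  V : Set (ℝ × ℝ)
  finite : V.Finite
  /-- the unbalanced vertices -/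
  U : Set (ℝ × ℝ)
  sub : U ⊆ V
  /-- the number of edges -/
  n : ℕ
  /-- the edges, parametrized by arc length on `[0, len e]` -/
  c : Fin n → ℝ → ℝ × ℝ
  /-- the lengths of the edges -/
  len : Fin n → ℝ
  len_pos : ∀ e, 0 < len e
  geod : ∀ e, ∀ t ∈ Icc 0 (len e), ZeroCurv.GeodAt g.E g.F g.G (c e) t
  start_mem : ∀ e, c e 0 ∈ V
  end_mem : ∀ e, c e (len e) ∈ V
  /-- interior points of edges are not vertices -/
  interior : ∀ e, ∀ t ∈ Ioo 0 (len e), c e t ∉ V
  /-- the edges are embedded and distinct edges meet only at endpoints -/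
  embedded : ∀ e e', ∀ t ∈ Icc 0 (len e), ∀ t' ∈ Icc 0 (len e'), c e t = c e' t' →
    (e = e' ∧ t = t') ∨ ((t = 0 ∨ t = len e) ∧ (t' = 0 ∨ t' = len e'))
  /-- the graph is connected -/
  connected : ∀ v ∈ V, ∀ w ∈ V, Relation.ReflTransGen
    (fun a b => ∃ e, (c e 0 = a ∧ c e (len e) = b) ∨ (c e 0 = b ∧ c e (len e) = a)) v w
  /-- balanced vertices have degree at least three -/
  degree : ∀ v ∈ V \ U, 3 ≤ {e | c e 0 = v}.ncard + {e | c e (len e) = v}.ncard
  /-- at a balanced vertex the unit tangent vectors of the incident edges, pointing away from the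
  vertex, sum to zero -/
  balanced : ∀ v ∈ V \ U, ∑ e, ({e | c e 0 = v}.indicator (fun e => deriv (c e) 0) e
    - {e | c e (len e) = v}.indicator (fun e => deriv (c e) (len e)) e) = 0
  /-- no edge joins two unbalanced vertices -/
  no_unbalanced_edge : ∀ e, ¬ (c e 0 ∈ U ∧ c e (len e) ∈ U)

/-- The net is a star with exactly one balanced vertex `O` and exactly three edges `O A_i`. -/
def GeodesicNet.IsTripod {g : RPlane} (N : GeodesicNet g) : Prop :=
  ∃ O, N.V \ N.U = {O} ∧ N.n = 3 ∧ ∀ a ∈ N.U, ∃ e,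
    (N.c e 0 = O ∧ N.c e (N.len e) = a) ∨ (N.c e 0 = a ∧ N.c e (N.len e) = O)

end Q195.Tripod
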