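import Pool.Agent.Q195.Tripod.Metric

/-!
# The two refocusing geodesics and the net
-/

open MeasureTheory Set Filter

namespace Q195.Tripod

/-- The `y`-coordinate of the geodesics. -/
noncomputable def Y (b t : ℝ) : ℝ :=
  ((1 - b ^ 2 / 2) * t - b ^ 2 / 4 * Real.sin (2 * t)) / Real.sqrt (1 - b ^ 2)

/-- The two geodesics (`σ = 1` or `σ = -1`). -/
noncomputable def Gam (b σ t : ℝ) : ℝ × ℝ := (σ * (b * Real.sin t), Y b t)

section
variable {b : ℝ} (hb : 0 < b) (hb2 : b ≤ 1 / 2)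
include hb hb2

theorem c_pos : 0 < 1 - b ^ 2 := by nlinarith

theorem Y_deriv (t : ℝ) : HasDerivAt (Y b)
    (Real.sqrt (1 - b ^ 2) * (1 + 1 / (1 - b ^ 2) * (b * Real.sin t) ^ 2)) t := by
  have hc := c_pos hb hb2
  have hs := Real.sqrt_pos.2 hc
  have hs2 := Real.sq_sqrt hc.le
  have h1 : HasDerivAt (fun t : ℝ => Real.sin (2 * t)) (2 * Real.cos (2 * t)) t := by
    have := ((hasDerivAt_id t).const_mul 2).sin
    refine this.congr_deriv ?_
    simp; ring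
  have h2 := (((hasDerivAt_id t).const_mul (1 - b ^ 2 / 2)).fun_sub
    (h1.const_mul (b ^ 2 / 4))).div_const (Real.sqrt (1 - b ^ 2))
  refine h2.congr_deriv ?_
  rw [Real.cos_two_mul, Real.cos_sq']
  rw [div_eq_iff hs.ne']
  have e : Real.sqrt (1 - b ^ 2) * (1 + 1 / (1 - b ^ 2) * (b * Real.sin t) ^ 2) *
      Real.sqrt (1 - b ^ 2) = Real.sqrt (1 - b ^ 2) ^ 2 *
        (1 + 1 / (1 - b ^ 2) * (b * Real.sin t) ^ 2) := by ring
  rw [e, hs2]
  field_simp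
  ring

theorem Y_strictMono : StrictMono (Y b) := by
  refine strictMono_of_deriv_pos fun t => ?_
  rw [(Y_deriv hb hb2 t).deriv]
  have hc := c_pos hb hb2
  have hs := Real.sqrt_pos.2 hc
  positivity

theorem Y_zero : Y b 0 = 0 := by simp [Y]

theorem Y_lt {t : ℝ} (h0 : 0 ≤ t) (h1 : t ≤ 3 * Real.pi / 2) : |Y b t| < 8 := by
  have hc := c_pos hb hb2
  have hs := Real.sqrt_pos.2 hc
  have hm := (Y_strictMono hb hb2).monotone h0
  rw [Y_zero hb hb2] at hm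
  rw [abs_of_nonneg hm]
  have hs3 : (43 / 50 : ℝ) ≤ Real.sqrt (1 - b ^ 2) := by
    apply Real.le_sqrt_of_sq_le
    nlinarith
  unfold Y
  rw [div_lt_iff₀ hs]
  have hpi := Real.pi_lt_d2
  have h2 : -(b ^ 2 / 4 * Real.sin (2 * t)) ≤ 1 / 16 := by
    have := Real.neg_one_le_sin (2 * t)
    nlinarith [sq_nonneg b]
  have h3 : (1 - b ^ 2 / 2) * t ≤ t := by nlinarith [mul_nonneg (sq_nonneg b) h0]
  nlinarith

theorem Gam_deriv (σ t : ℝ) : HasDerivAt (Gam b σ) (σ * (b * Real.cos t),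
    Real.sqrt (1 - b ^ 2) * (1 + 1 / (1 - b ^ 2) * (b * Real.sin t) ^ 2)) t :=
  (((Real.hasDerivAt_sin t).const_mul b).const_mul σ).prodMk (Y_deriv hb hb2 t)

theorem G_local {z : ℝ × ℝ} (h1 : |z.1| < 3 / 2 * b) (h2 : |z.2| < 8) (hκ : 0 ≤ 1 / (1 - b ^ 2)) :
    u b (1 / (1 - b ^ 2)) z ^ 2 = 1 / (1 + 1 / (1 - b ^ 2) * z.1 ^ 2) := by
  rw [u_sq b hκ]
  have e : w b z = z.1 := by
    unfold w
    rw [rho.one_of_mem_closedBall (by simpa [rho] using h2.le), chi_eq]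
    · field_simp
    · rw [abs_div, abs_of_pos hb, div_le_iff₀ hb]
      exact h1.le
  rw [e]

theorem Gam_geod {σ : ℝ} (hσ : σ ^ 2 = 1) {t : ℝ} (ht : |Y b t| < 8)
    (hκ : 0 ≤ 1 / (1 - b ^ 2)) :
    ZeroCurv.GeodAt (plane b (1 / (1 - b ^ 2)) hκ).E (plane b (1 / (1 - b ^ 2)) hκ).F
      (plane b (1 / (1 - b ^ 2)) hκ).G (Gam b σ) t := by
  have hc := c_pos hb hb2
  have hs := Real.sqrt_pos.2 hc
  have hs2 := Real.sq_sqrt hc.le
  set κ := 1 / (1 - b ^ 2) with hκd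
  have hσa : |σ| = 1 := by
    rw [← sq_abs] at hσ
    exact (pow_eq_one_iff_of_nonneg (abs_nonneg σ) two_ne_zero).1 hσ
  have hsin : ∀ s, |(Gam b σ s).1| < 3 / 2 * b := by
    intro s
    change |σ * (b * Real.sin s)| < _
    rw [abs_mul, hσa, one_mul, abs_mul, abs_of_pos hb]
    have := Real.abs_sin_le_one s
    nlinarith
  have hcont : ContinuousAt (Y b) t := (Y_deriv hb hb2 t).continuousAt
  have hev : ∀ᶠ s in nhds t, |Y b s| < 8 :=
    hcont.abs.eventually (gt_mem_nhds ht)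
  -- the coefficient `G` near the curve
  have hGev : ∀ s, |Y b s| < 8 → (fun z => u b κ z ^ 2) =ᶠ[nhds (Gam b σ s)]
      fun z => 1 / (1 + κ * z.1 ^ 2) := by
    intro s hs8
    have o1 : ∀ᶠ z : ℝ × ℝ in nhds (Gam b σ s), |z.1| < 3 / 2 * b :=
      (continuous_fst.abs.continuousAt).eventually (gt_mem_nhds (hsin s))
    have o2 : ∀ᶠ z : ℝ × ℝ in nhds (Gam b σ s), |z.2| < 8 :=
      (continuous_snd.abs.continuousAt).eventually (gt_mem_nhds hs8)
    filter_upwards [o1, o2] with z h1 h2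
    exact G_local hb hb2 h1 h2 hκ
  have hGd : ∀ z : ℝ × ℝ, HasFDerivAt (fun z : ℝ × ℝ => 1 / (1 + κ * z.1 ^ 2))
      ((-(2 * κ * z.1) / (1 + κ * z.1 ^ 2) ^ 2) • ContinuousLinearMap.fst ℝ ℝ ℝ) z := by
    intro z
    have hp := one_add_pos hκ z.1
    have h1 : HasDerivAt (fun x : ℝ => 1 / (1 + κ * x ^ 2))
        (-(2 * κ * z.1) / (1 + κ * z.1 ^ 2) ^ 2) z.1 := by
      have h2 : HasDerivAt (fun x : ℝ => 1 + κ * x ^ 2) (2 * κ * z.1) z.1 := by
        have := (((hasDerivAt_id z.1).fun_pow 2).const_mul κ).const_add 1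
        refine this.congr_deriv ?_
        simp; ring
      have h3 := h2.fun_inv hp.ne'
      simp only [one_div]
      exact h3
    have h4 := h1.comp_hasFDerivAt z (hasFDerivAt_fst (𝕜 := ℝ) (E := ℝ) (F := ℝ) (p := z))
    exact h4
  have hder : ∀ s, deriv (Gam b σ) s = (σ * (b * Real.cos s),
      Real.sqrt (1 - b ^ 2) * (1 + κ * (b * Real.sin s) ^ 2)) :=
    fun s => (Gam_deriv hb hb2 σ s).deriv
  have hσs : ∀ s, (σ * (b * Real.sin s)) ^ 2 = (b * Real.sin s) ^ 2 := fun s => by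
    rw [mul_pow, hσ, one_mul]
  have hGt : u b κ (Gam b σ t) ^ 2 = 1 / (1 + κ * (b * Real.sin t) ^ 2) := by
    rw [G_local hb hb2 (hsin t) ht hκ]
    change 1 / (1 + κ * (σ * (b * Real.sin t)) ^ 2) = _
    rw [hσs]
  have hq := one_add_pos hκ (b * Real.sin t)
  have hpd1 : ZeroCurv.pd1 (fun z => u b κ z ^ 2) (Gam b σ t)
      = -(2 * κ * (σ * (b * Real.sin t))) / (1 + κ * (b * Real.sin t) ^ 2) ^ 2 := by
    unfold ZeroCurv.pd1
    rw [(hGev t ht).fderiv_eq, (hGd _).fderiv]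
    change -(2 * κ * (σ * (b * Real.sin t))) / (1 + κ * (σ * (b * Real.sin t)) ^ 2) ^ 2 * 1 = _
    rw [hσs, mul_one]
  have hpd2 : ZeroCurv.pd2 (fun z => u b κ z ^ 2) (Gam b σ t) = 0 := by
    unfold ZeroCurv.pd2
    rw [(hGev t ht).fderiv_eq, (hGd _).fderiv]
    simp
  have hz1 : ∀ (r : ℝ) (z : ℝ × ℝ), ZeroCurv.pd1 (fun _ => r) z = 0 := by
    intro r z; simp [ZeroCurv.pd1]
  have hz2 : ∀ (r : ℝ) (z : ℝ × ℝ), ZeroCurv.pd2 (fun _ => r) z = 0 := by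
    intro r z; simp [ZeroCurv.pd2]
  refine ⟨?_, ?_, ?_, ?_⟩
  · have : ContDiff ℝ 2 (Gam b σ) := by
      unfold Gam Y
      fun_prop
    exact this.contDiffAt
  · change 1 * (deriv (Gam b σ) t).1 ^ 2 + 2 * 0 * (deriv (Gam b σ) t).1 * (deriv (Gam b σ) t).2
      + u b κ (Gam b σ t) ^ 2 * (deriv (Gam b σ) t).2 ^ 2 = 1
    rw [hder, hGt]
    simp only
    rw [mul_pow, hσ, mul_pow (Real.sqrt (1 - b ^ 2)), hs2]
    have e1 : (1 - b ^ 2) * κ = 1 := by rw [hκd]; field_simp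
    have e2 := Real.sin_sq_add_cos_sq t
    field_simp
    linear_combination (b * Real.sin t) ^ 2 * e1 + b ^ 2 * e2
  · change deriv (fun s => 1 * (deriv (Gam b σ) s).1 + 0 * (deriv (Gam b σ) s).2) t
      = 1 / 2 * (ZeroCurv.pd1 (fun _ => (1 : ℝ)) (Gam b σ t) * (deriv (Gam b σ) t).1 ^ 2 +
        2 * ZeroCurv.pd1 (fun _ => (0 : ℝ)) (Gam b σ t) * (deriv (Gam b σ) t).1 *
          (deriv (Gam b σ) t).2 +
        ZeroCurv.pd1 (fun z => u b κ z ^ 2) (Gam b σ t) * (deriv (Gam b σ) t).2 ^ 2)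
    rw [hz1, hz1, hpd1]
    simp only [hder]
    have h1 : HasDerivAt (fun s => 1 * (σ * (b * Real.cos s)) +
        0 * (Real.sqrt (1 - b ^ 2) * (1 + κ * (b * Real.sin s) ^ 2))) (-(σ * (b * Real.sin t))) t := by
      have := ((Real.hasDerivAt_cos t).const_mul b).const_mul σ
      simp only [one_mul, zero_mul, add_zero]
      refine this.congr_deriv ?_
      ring
    rw [h1.deriv, mul_pow (Real.sqrt (1 - b ^ 2)), hs2]
    have e1 : (1 - b ^ 2) * κ = 1 := by rw [hκd]; field_simp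
    field_simp
    linear_combination (2 * σ * Real.sin t) * e1
  · change deriv (fun s => 0 * (deriv (Gam b σ) s).1 + u b κ (Gam b σ s) ^ 2 *
        (deriv (Gam b σ) s).2) t
      = 1 / 2 * (ZeroCurv.pd2 (fun _ => (1 : ℝ)) (Gam b σ t) * (deriv (Gam b σ) t).1 ^ 2 +
        2 * ZeroCurv.pd2 (fun _ => (0 : ℝ)) (Gam b σ t) * (deriv (Gam b σ) t).1 *
          (deriv (Gam b σ) t).2 +
        ZeroCurv.pd2 (fun z => u b κ z ^ 2) (Gam b σ t) * (deriv (Gam b σ) t).2 ^ 2)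
    rw [hz2, hz2, hpd2]
    have h1 : (fun s => 0 * (deriv (Gam b σ) s).1 + u b κ (Gam b σ s) ^ 2 *
        (deriv (Gam b σ) s).2) =ᶠ[nhds t] fun _ => Real.sqrt (1 - b ^ 2) := by
      filter_upwards [hev] with s hs8
      have hq := one_add_pos hκ (b * Real.sin s)
      rw [G_local hb hb2 (hsin s) hs8 hκ, hder]
      change 0 * (σ * (b * Real.cos s)) + 1 / (1 + κ * (σ * (b * Real.sin s)) ^ 2) *
        (Real.sqrt (1 - b ^ 2) * (1 + κ * (b * Real.sin s) ^ 2)) = _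
      rw [hσs]
      field_simp
      ring
    rw [h1.deriv_eq]
    simp
end

end Q195.Tripod
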