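import Pool.Agent.Helper206.Spiral.Bri
import Pool.Agent.Q195.Tripod.Defs

/-!
# The metric `dx² + u² dy²` with `u = (1 + κ w²)^{-1/2}`, `w = b ρ(y) χ(x/b)`
-/

open MeasureTheory Set Filter

namespace Q195.Tripod

/-- Bump function equal to one on `[-3/2, 3/2]` and zero outside `[-2, 2]`. -/
noncomputable def psi : ContDiffBump (0 : ℝ) := ⟨3 / 2, 2, by norm_num, by norm_num⟩

/-- Bump function equal to one on `[-8, 8]` and zero outside `[-16, 16]`. -/
noncomputable def rho : ContDiffBump (0 : ℝ) := ⟨8, 16, by norm_num, by norm_num⟩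

/-- `χ(y) = y ψ(y)`. -/
noncomputable def chi (y : ℝ) : ℝ := y * psi y

theorem chi_contDiff : ContDiff ℝ (⊤ : ℕ∞) chi := contDiff_id.mul psi.contDiff

theorem chi_eq {y : ℝ} (hy : |y| ≤ 3 / 2) : chi y = y := by
  unfold chi
  rw [psi.one_of_mem_closedBall (by simpa [psi] using hy), mul_one]

theorem psi_support {y : ℝ} (hy : 2 ≤ |y|) : psi y = 0 := by
  by_contra h
  have : y ∈ Function.support psi := h
  rw [psi.support_eq] at this
  simp [psi] at this
  linarith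

theorem chi_compact : HasCompactSupport chi := by
  have : HasCompactSupport (psi : ℝ → ℝ) := psi.hasCompactSupport
  exact this.mul_left

theorem chi_tsupport : tsupport chi ⊆ Icc (-2) 2 := by
  refine closure_minimal ?_ isClosed_Icc
  intro y hy
  by_contra h
  have h2 : 2 ≤ |y| := by
    rw [mem_Icc, not_and_or] at h
    rcases h with h | h
    · rw [abs_of_neg (by linarith)]; linarith
    · rw [abs_of_pos (by linarith)]; linarith
  exact hy (by unfold chi; rw [psi_support h2, mul_zero])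

theorem chi_zero {y : ℝ} (hy : 2 < |y|) : chi y = 0 ∧ deriv chi y = 0 := by
  have hn : y ∉ tsupport chi := fun h => by
    have := chi_tsupport h
    rw [mem_Icc, ← abs_le] at this
    linarith
  refine ⟨image_eq_zero_of_notMem_tsupport hn, ?_⟩
  by_contra h
  exact hn (support_deriv_subset h)

/-- Bounds for `χ` and its first two derivatives. -/
theorem chi_bounds : ∃ M : ℝ, 0 < M ∧ ∀ y, |chi y| ≤ M ∧ |deriv chi y| ≤ M ∧
    |deriv (deriv chi) y| ≤ M := by
  have c1 : ContDiff ℝ 2 chi := chi_contDiff.of_le (WithTop.coe_le_coe.2 (le_top (a := (2 : ℕ∞))))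
  have c2 : ContDiff ℝ 1 (deriv chi) := by
    have := (contDiff_succ_iff_deriv (n := 1) (f := chi)).1 (by exact_mod_cast c1)
    exact this.2.2
  have c3 : Continuous (deriv (deriv chi)) := c2.continuous_deriv le_rfl
  obtain ⟨M0, h0⟩ := c1.continuous.bounded_above_of_compact_support chi_compact
  obtain ⟨M1, h1⟩ := c2.continuous.bounded_above_of_compact_support chi_compact.deriv
  obtain ⟨M2, h2⟩ := c3.bounded_above_of_compact_support chi_compact.deriv.deriv
  refine ⟨max (max M0 M1) (max M2 1), by positivity, fun y => ⟨?_, ?_, ?_⟩⟩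
  · exact (h0 y).trans ((le_max_left _ _).trans (le_max_left _ _))
  · exact (h1 y).trans ((le_max_right _ _).trans (le_max_left _ _))
  · exact (h2 y).trans ((le_max_left _ _).trans (le_max_right _ _))

/-- The function `w`. -/
noncomputable def w (b : ℝ) (z : ℝ × ℝ) : ℝ := b * rho z.2 * chi (z.1 / b)

/-- The function `u = (1 + κ w²)^{-1/2}`. -/
noncomputable def u (b κ : ℝ) (z : ℝ × ℝ) : ℝ := (Real.sqrt (1 + κ * w b z ^ 2))⁻¹

theorem w_contDiff (b : ℝ) : ContDiff ℝ (⊤ : ℕ∞) (w b) := by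
  unfold w
  exact (contDiff_const.mul (rho.contDiff.comp contDiff_snd)).mul
    (chi_contDiff.comp (contDiff_fst.div_const b))

theorem one_add_pos {κ : ℝ} (hκ : 0 ≤ κ) (r : ℝ) : 0 < 1 + κ * r ^ 2 := by positivity

theorem u_contDiff (b : ℝ) {κ : ℝ} (hκ : 0 ≤ κ) : ContDiff ℝ (⊤ : ℕ∞) (u b κ) := by
  unfold u
  have h1 : ContDiff ℝ (⊤ : ℕ∞) (fun z => 1 + κ * w b z ^ 2) :=
    contDiff_const.add (contDiff_const.mul ((w_contDiff b).pow 2))
  have h2 := h1.sqrt (fun z => (one_add_pos hκ (w b z)).ne')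
  exact h2.inv (fun z => (Real.sqrt_pos.2 (one_add_pos hκ (w b z))).ne')

theorem u_pos (b : ℝ) {κ : ℝ} (hκ : 0 ≤ κ) (z : ℝ × ℝ) : 0 < u b κ z :=
  inv_pos.2 (Real.sqrt_pos.2 (one_add_pos hκ (w b z)))

theorem u_sq (b : ℝ) {κ : ℝ} (hκ : 0 ≤ κ) (z : ℝ × ℝ) : u b κ z ^ 2 = 1 / (1 + κ * w b z ^ 2) := by
  unfold u
  rw [inv_pow, Real.sq_sqrt (one_add_pos hκ _).le, one_div]

/-- `pd1` is the derivative along horizontal lines. -/
theorem pd1_eq {f : ℝ × ℝ → ℝ} {z : ℝ × ℝ} {f' : ℝ} (hf : DifferentiableAt ℝ f z)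
    (h : HasDerivAt (fun x => f (x, z.2)) f' z.1) : ZeroCurv.pd1 f z = f' := by
  unfold ZeroCurv.pd1
  have h1 : HasDerivAt (fun x : ℝ => ((x, z.2) : ℝ × ℝ)) (1, 0) z.1 :=
    (hasDerivAt_id z.1).prodMk (hasDerivAt_const z.1 z.2)
  have h2 : HasFDerivAt f (fderiv ℝ f z) ((z.1, z.2) : ℝ × ℝ) := hf.hasFDerivAt
  exact (h2.comp_hasDerivAt z.1 h1).unique h

/-- The bound for `-u_xx`. -/
theorem neg_uxx_le {b κ : ℝ} (hb : 0 < b) (hκ : 0 ≤ κ) (hκ2 : κ ≤ 2) {M : ℝ} (hM : 0 < M)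
    (hMb : ∀ y, |chi y| ≤ M ∧ |deriv chi y| ≤ M ∧ |deriv (deriv chi) y| ≤ M) (z : ℝ × ℝ) :
    max (-ZeroCurv.pd1 (ZeroCurv.pd1 (u b κ)) z) 0 ≤
      (Icc (-(2 * b)) (2 * b) ×ˢ Icc (-16) 16).indicator (fun _ => 4 * M ^ 2) z := by
  have c1 : ContDiff ℝ 2 chi := chi_contDiff.of_le (WithTop.coe_le_coe.2 (le_top (a := (2 : ℕ∞))))
  have c2 : ContDiff ℝ 1 (deriv chi) := by
    have := (contDiff_succ_iff_deriv (n := 1) (f := chi)).1 (by exact_mod_cast c1)
    exact this.2.2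
  have d0 : ∀ y, HasDerivAt chi (deriv chi y) y := fun y =>
    (c1.differentiable (by norm_num) y).hasDerivAt
  have d1 : ∀ y, HasDerivAt (deriv chi) (deriv (deriv chi) y) y := fun y =>
    (c2.differentiable (by norm_num) y).hasDerivAt
  have hlin : ∀ x : ℝ, HasDerivAt (fun x : ℝ => x / b) (1 / b) x := fun x =>
    (hasDerivAt_id x).div_const b
  have hu := u_contDiff b hκ
  have hud : ∀ z, DifferentiableAt ℝ (u b κ) z := fun z =>
    hu.differentiable (by simp) z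
  -- the one-variable functions
  have hw : ∀ x y : ℝ, HasDerivAt (fun x => w b (x, y)) (rho y * deriv chi (x / b)) x := by
    intro x y
    have h1 := ((d0 (x / b)).comp x (hlin x)).const_mul (b * rho y)
    refine h1.congr_deriv ?_
    field_simp
  have hw' : ∀ x y : ℝ, HasDerivAt (fun x => rho y * deriv chi (x / b))
      (rho y * deriv (deriv chi) (x / b) / b) x := by
    intro x y
    have h1 := ((d1 (x / b)).comp x (hlin x)).const_mul (rho y)
    refine h1.congr_deriv ?_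
    field_simp
  set q : ℝ × ℝ → ℝ := fun z => 1 + κ * w b z ^ 2 with hq
  have hqpos : ∀ z, 0 < q z := fun z => one_add_pos hκ _
  have hq' : ∀ x y : ℝ, HasDerivAt (fun x => q (x, y))
      (2 * κ * w b (x, y) * (rho y * deriv chi (x / b))) x := by
    intro x y
    have h1 := (((hw x y).fun_pow 2).const_mul κ).const_add 1
    refine h1.congr_deriv ?_
    push_cast
    ring
  have hsq : ∀ x y : ℝ, HasDerivAt (fun x => Real.sqrt (q (x, y)))
      (2 * κ * w b (x, y) * (rho y * deriv chi (x / b)) / (2 * Real.sqrt (q (x, y)))) x :=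
    fun x y => (hq' x y).sqrt (hqpos _).ne'
  have hux : ∀ x y : ℝ, HasDerivAt (fun x => u b κ (x, y))
      (-(κ * (w b (x, y) * (rho y * deriv chi (x / b)))) * u b κ (x, y) ^ 3) x := by
    intro x y
    have hs := Real.sqrt_pos.2 (hqpos (x, y))
    have h1 := (hsq x y).fun_inv hs.ne'
    refine h1.congr_deriv ?_
    have e : u b κ (x, y) = (Real.sqrt (q (x, y)))⁻¹ := rfl
    rw [e]
    field_simp
  have e1 : ZeroCurv.pd1 (u b κ) = fun z => -(κ * (w b z * (rho z.2 * deriv chi (z.1 / b)))) *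
      u b κ z ^ 3 := by
    funext z
    exact pd1_eq (hud z) (hux z.1 z.2)
  have hpd1 : DifferentiableAt ℝ (ZeroCurv.pd1 (u b κ)) z := by
    have h2 : ContDiff ℝ 2 (u b κ) := hu.of_le (WithTop.coe_le_coe.2 (le_top (a := (2 : ℕ∞))))
    have h1 : ContDiff ℝ 1 (fderiv ℝ (u b κ)) := h2.fderiv_right (by norm_num)
    exact ((h1.differentiable (by norm_num)) z).clm_apply (differentiableAt_const _)
  have huxx : HasDerivAt (fun x => ZeroCurv.pd1 (u b κ) (x, z.2))
      (-(κ * ((rho z.2 * deriv chi (z.1 / b)) ^ 2 +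
        w b z * (rho z.2 * deriv (deriv chi) (z.1 / b) / b))) * u b κ z ^ 3
        + 3 * κ ^ 2 * (w b z * (rho z.2 * deriv chi (z.1 / b))) ^ 2 * u b κ z ^ 5) z.1 := by
    rw [e1]
    have h1 := (((hw z.1 z.2).fun_mul (hw' z.1 z.2)).const_mul κ).fun_neg.fun_mul
      ((hux z.1 z.2).fun_pow 3)
    refine h1.congr_deriv ?_
    push_cast
    ring
  have e2 := pd1_eq hpd1 huxx
  rw [e2]
  have hu0 := u_pos b hκ z
  have hu1 : u b κ z ≤ 1 := by
    have h1 : u b κ z = (Real.sqrt (q z))⁻¹ := rfl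
    rw [h1]
    refine inv_le_one_of_one_le₀ ?_
    rw [Real.one_le_sqrt]
    simp only [hq]
    nlinarith [mul_nonneg hκ (sq_nonneg (w b z))]
  have hr0 : 0 ≤ rho z.2 := rho.nonneg
  have hr1 : rho z.2 ≤ 1 := rho.le_one
  by_cases hz : z ∈ Icc (-(2 * b)) (2 * b) ×ˢ Icc (-16 : ℝ) 16
  · rw [indicator_of_mem hz]
    refine max_le ?_ (by positivity)
    obtain ⟨m0, m1, m2⟩ := hMb (z.1 / b)
    set χ0 := chi (z.1 / b)
    set χ1 := deriv chi (z.1 / b)
    set χ2 := deriv (deriv chi) (z.1 / b)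
    set r := rho z.2
    have ew : w b z * (r * χ2 / b) = r ^ 2 * (χ0 * χ2) := by
      change b * r * χ0 * (r * χ2 / b) = _
      field_simp
    rw [ew]
    have k1 : (r * χ1) ^ 2 ≤ M ^ 2 := by
      rw [mul_pow]
      have a1 : r ^ 2 ≤ 1 := by nlinarith
      have a2 : χ1 ^ 2 ≤ M ^ 2 := by
        rw [← sq_abs]
        exact pow_le_pow_left₀ (abs_nonneg _) m1 2
      calc r ^ 2 * χ1 ^ 2 ≤ 1 * M ^ 2 := mul_le_mul a1 a2 (sq_nonneg _) (by norm_num)
        _ = M ^ 2 := one_mul _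
    have k2 : r ^ 2 * (χ0 * χ2) ≤ M ^ 2 := by
      have a1 : r ^ 2 ≤ 1 := by nlinarith
      have a2 : χ0 * χ2 ≤ M * M := by
        calc χ0 * χ2 ≤ |χ0 * χ2| := le_abs_self _
          _ = |χ0| * |χ2| := abs_mul _ _
          _ ≤ M * M := mul_le_mul m0 m2 (abs_nonneg _) hM.le
      nlinarith [sq_nonneg r, mul_pos hM hM]
    have k3 : 0 ≤ 3 * κ ^ 2 * (w b z * (r * χ1)) ^ 2 * u b κ z ^ 5 := by positivity
    have k4 : u b κ z ^ 3 ≤ 1 := pow_le_one₀ hu0.le hu1
    have k5 : κ * ((r * χ1) ^ 2 + r ^ 2 * (χ0 * χ2)) ≤ 4 * M ^ 2 := by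
      have : (r * χ1) ^ 2 + r ^ 2 * (χ0 * χ2) ≤ 2 * M ^ 2 := by linarith
      nlinarith [sq_nonneg M]
    have k6 : κ * ((r * χ1) ^ 2 + r ^ 2 * (χ0 * χ2)) * u b κ z ^ 3 ≤ 4 * M ^ 2 := by
      rcases le_total 0 (κ * ((r * χ1) ^ 2 + r ^ 2 * (χ0 * χ2))) with h | h
      · calc κ * ((r * χ1) ^ 2 + r ^ 2 * (χ0 * χ2)) * u b κ z ^ 3
            ≤ κ * ((r * χ1) ^ 2 + r ^ 2 * (χ0 * χ2)) * 1 :=
              mul_le_mul_of_nonneg_left k4 h
          _ ≤ 4 * M ^ 2 := by linarith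
      · have : κ * ((r * χ1) ^ 2 + r ^ 2 * (χ0 * χ2)) * u b κ z ^ 3 ≤ 0 :=
          mul_nonpos_of_nonpos_of_nonneg h (by positivity)
        nlinarith [sq_nonneg M]
    linarith
  · rw [indicator_of_notMem hz]
    have hzero : w b z = 0 ∧ rho z.2 * deriv chi (z.1 / b) = 0 := by
      rw [mem_prod, not_and_or] at hz
      rcases hz with h | h
      · have h2 : 2 < |z.1 / b| := by
          rw [mem_Icc, ← abs_le] at h
          push Not at h
          rw [abs_div, abs_of_pos hb, lt_div_iff₀ hb]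
          exact h
        obtain ⟨c0, c1'⟩ := chi_zero h2
        unfold w
        rw [c0, c1']
        simp
      · have h2 : rho z.2 = 0 := by
          by_contra h3
          have h4 : z.2 ∈ Function.support rho := h3
          rw [rho.support_eq] at h4
          simp only [rho, Metric.mem_ball, dist_zero_right, Real.norm_eq_abs] at h4
          rw [mem_Icc, ← abs_le] at h
          exact h h4.le
        unfold w
        rw [h2]
        simp
    rw [hzero.1, hzero.2]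
    simp

/-- The plane. -/
noncomputable def plane (b κ : ℝ) (hκ : 0 ≤ κ) : RPlane where
  E := fun _ => 1
  F := fun _ => 0
  G := fun z => u b κ z ^ 2
  smoothE := contDiff_const
  smoothF := contDiff_const
  smoothG := (u_contDiff b hκ).pow 2
  posE := fun _ => one_pos
  posdet := fun z => by
    have := u_pos b hκ z
    simp only [one_mul, ne_eq, OfNat.ofNat_ne_zero, not_false_eq_true, zero_pow, sub_zero]
    positivity

theorem totalPosCurv_le {b κ : ℝ} (hb : 0 < b) (hκ : 0 ≤ κ) (hκ2 : κ ≤ 2) {M : ℝ} (hM : 0 < M)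
    (hMb : ∀ y, |chi y| ≤ M ∧ |deriv chi y| ≤ M ∧ |deriv (deriv chi) y| ≤ M) :
    (plane b κ hκ).totalPosCurv ≤ ENNReal.ofReal (4 * M ^ 2 * (4 * b * 32)) := by
  unfold RPlane.totalPosCurv
  have h1 : ∀ z, max (ZeroCurv.brioschi (plane b κ hκ).E (plane b κ hκ).F (plane b κ hκ).G z) 0 *
      Real.sqrt ((plane b κ hκ).E z * (plane b κ hκ).G z - (plane b κ hκ).F z ^ 2)
      = max (-ZeroCurv.pd1 (ZeroCurv.pd1 (u b κ)) z) 0 := by
    intro z
    have hu0 := u_pos b hκ z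
    have e1 : ZeroCurv.brioschi (plane b κ hκ).E (plane b κ hκ).F (plane b κ hκ).G z
        = -ZeroCurv.pd1 (ZeroCurv.pd1 (u b κ)) z / u b κ z :=
      ZeroCurv.brioschi_polar ((u_contDiff b hκ).of_le
        (WithTop.coe_le_coe.2 (le_top (a := (3 : ℕ∞))))) hu0.ne'
    have e2 : (plane b κ hκ).E z * (plane b κ hκ).G z - (plane b κ hκ).F z ^ 2 = u b κ z ^ 2 := by
      simp [plane]
    rw [e1, e2, Real.sqrt_sq hu0.le, max_mul_of_nonneg _ _ hu0.le, zero_mul,
      div_mul_cancel₀ _ hu0.ne']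
  simp only [h1]
  calc ∫⁻ z : ℝ × ℝ, ENNReal.ofReal (max (-ZeroCurv.pd1 (ZeroCurv.pd1 (u b κ)) z) 0)
      ≤ ∫⁻ z : ℝ × ℝ, (Icc (-(2 * b)) (2 * b) ×ˢ Icc (-16 : ℝ) 16).indicator
          (fun _ => ENNReal.ofReal (4 * M ^ 2)) z := by
        refine lintegral_mono fun z => ?_
        have h2 := ENNReal.ofReal_le_ofReal (neg_uxx_le hb hκ hκ2 hM hMb z)
        refine h2.trans (le_of_eq ?_)
        by_cases hz : z ∈ Icc (-(2 * b)) (2 * b) ×ˢ Icc (-16 : ℝ) 16
        · rw [indicator_of_mem hz, indicator_of_mem hz]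
        · rw [indicator_of_notMem hz, indicator_of_notMem hz, ENNReal.ofReal_zero]
    _ = ENNReal.ofReal (4 * M ^ 2) * volume (Icc (-(2 * b)) (2 * b) ×ˢ Icc (-16 : ℝ) 16) := by
        rw [lintegral_indicator (measurableSet_Icc.prod measurableSet_Icc), lintegral_const,
          Measure.restrict_apply MeasurableSet.univ, univ_inter]
    _ = ENNReal.ofReal (4 * M ^ 2 * (4 * b * 32)) := by
        rw [Measure.volume_eq_prod, Measure.prod_prod, Real.volume_Icc, Real.volume_Icc,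
          ← ENNReal.ofReal_mul (by linarith), ← ENNReal.ofReal_mul (by positivity)]
        congr 1
        ring

theorem boundedBelow {b κ : ℝ} (hb : 0 < b) (hκ : 0 ≤ κ) (hκ2 : κ ≤ 2) {M : ℝ} (hM : 0 < M)
    (hMb : ∀ y, |chi y| ≤ M ∧ |deriv chi y| ≤ M ∧ |deriv (deriv chi) y| ≤ M) :
    (plane b κ hκ).BoundedBelow := by
  refine ⟨1 / (1 + 2 * (b * M) ^ 2), by positivity, fun z v w' => ?_⟩
  have hr0 : 0 ≤ rho z.2 := rho.nonneg
  have hr1 : rho z.2 ≤ 1 := rho.le_one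
  have hw : w b z ^ 2 ≤ (b * M) ^ 2 := by
    rw [← sq_abs]
    refine pow_le_pow_left₀ (abs_nonneg _) ?_ 2
    unfold w
    rw [abs_mul, abs_mul, abs_of_pos hb, abs_of_nonneg hr0]
    have := (hMb (z.1 / b)).1
    calc b * rho z.2 * |chi (z.1 / b)| ≤ b * 1 * M := by gcongr
      _ = b * M := by ring
  have hG : 1 / (1 + 2 * (b * M) ^ 2) ≤ u b κ z ^ 2 := by
    rw [u_sq b hκ]
    refine one_div_le_one_div_of_le (one_add_pos hκ _) ?_
    nlinarith [sq_nonneg (w b z)]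
  have h1 : 1 / (1 + 2 * (b * M) ^ 2) ≤ 1 := by
    rw [div_le_one (by positivity)]
    nlinarith [sq_nonneg (b * M)]
  change 1 / (1 + 2 * (b * M) ^ 2) * (v ^ 2 + w' ^ 2) ≤ 1 * v ^ 2 + 2 * 0 * (v * w')
    + u b κ z ^ 2 * w' ^ 2
  nlinarith [sq_nonneg v, sq_nonneg w', mul_le_mul_of_nonneg_right hG (sq_nonneg w'),
    mul_le_mul_of_nonneg_right h1 (sq_nonneg v)]

end Q195.Tripod
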