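import Pool.Agent.Q195.Tripod.Geod

/-!
# The net with three unbalanced vertices and one balanced vertex of degree four
-/

open MeasureTheory Set Filter

namespace Q195.Tripod

theorem GeodAt_shift {E F G : ℝ × ℝ → ℝ} {c : ℝ → ℝ × ℝ} {t o : ℝ}
    (h : ZeroCurv.GeodAt E F G c (t + o)) :
    ZeroCurv.GeodAt E F G (fun s => c (s + o)) t := by
  obtain ⟨h1, h2, h3, h4⟩ := h
  have hd : ∀ s, deriv (fun s => c (s + o)) s = deriv c (s + o) := fun s =>
    deriv_comp_add_const c o s
  refine ⟨?_, ?_, ?_, ?_⟩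
  · have : ContDiffAt ℝ 2 (fun s : ℝ => s + o) t := by fun_prop
    exact h1.comp t this
  · rw [hd]; exact h2
  · simp only [hd]
    have := deriv_comp_add_const (fun s => E (c s) * (deriv c s).1 + F (c s) * (deriv c s).2) o t
    exact this.trans h3
  · simp only [hd]
    have := deriv_comp_add_const (fun s => F (c s) * (deriv c s).1 + G (c s) * (deriv c s).2) o t
    exact this.trans h4

/-- Signs of the edges. -/
noncomputable def sg : Fin 4 → ℝ := ![1, -1, 1, -1]

/-- Offsets of the edges. -/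
noncomputable def off : Fin 4 → ℝ := ![0, 0, Real.pi, Real.pi]

/-- Lengths of the edges. -/
noncomputable def ln : Fin 4 → ℝ := ![Real.pi, Real.pi, Real.pi / 2, Real.pi / 2]

/-- The edges. -/
noncomputable def edge (b : ℝ) (e : Fin 4) (t : ℝ) : ℝ × ℝ := Gam b (sg e) (t + off e)

theorem sg_sq (e : Fin 4) : sg e ^ 2 = 1 := by
  fin_cases e <;> simp [sg]

theorem ln_pos (e : Fin 4) : 0 < ln e := by
  have := Real.pi_pos
  fin_cases e <;> simp [ln, this]

theorem off_nonneg (e : Fin 4) : 0 ≤ off e := by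
  have := Real.pi_pos
  fin_cases e <;> simp [off, this.le]

theorem off_add (e : Fin 4) {t : ℝ} (ht : t ≤ ln e) : t + off e ≤ 3 * Real.pi / 2 := by
  have := Real.pi_pos
  fin_cases e <;> simp [off, ln] at ht ⊢ <;> linarith

variable {b : ℝ}

theorem Gam_zero (σ : ℝ) : Gam b σ 0 = (0, 0) := by simp [Gam, Y]

theorem Gam_pi (σ : ℝ) : Gam b σ Real.pi = (0, Y b Real.pi) := by simp [Gam]

/-- The vertices. -/
noncomputable def A1 : ℝ × ℝ := (0, 0)
/-- The balanced vertex. -/
noncomputable def O (b : ℝ) : ℝ × ℝ := (0, Y b Real.pi)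
/-- The end of the first geodesic. -/
noncomputable def A2 (b : ℝ) : ℝ × ℝ := Gam b 1 (3 * Real.pi / 2)
/-- The end of the second geodesic. -/
noncomputable def A3 (b : ℝ) : ℝ × ℝ := Gam b (-1) (3 * Real.pi / 2)

theorem A2_eq : A2 b = (-b, Y b (3 * Real.pi / 2)) := by
  have h : Real.sin (3 * Real.pi / 2) = -1 := by
    rw [show 3 * Real.pi / 2 = Real.pi / 2 + Real.pi by ring, Real.sin_add_pi]
    simp
  simp [A2, Gam, h]

theorem A3_eq : A3 b = (b, Y b (3 * Real.pi / 2)) := by
  have h : Real.sin (3 * Real.pi / 2) = -1 := by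
    rw [show 3 * Real.pi / 2 = Real.pi / 2 + Real.pi by ring, Real.sin_add_pi]
    simp
  simp [A3, Gam, h]

theorem edge_start (e : Fin 4) : edge b e 0 = ![A1, A1, O b, O b] e := by
  fin_cases e
  · simp [edge, off, A1, Gam_zero]
  · simp [edge, off, A1, Gam_zero]
  · simp [edge, off, O, Gam_pi]
  · simp [edge, off, O, Gam_pi]

theorem edge_end (e : Fin 4) : edge b e (ln e) = ![O b, O b, A2 b, A3 b] e := by
  have h : Real.pi / 2 + Real.pi = 3 * Real.pi / 2 := by ring
  fin_cases e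
  · simp [edge, off, ln, O, Gam_pi]
  · simp [edge, off, ln, O, Gam_pi]
  · simp [edge, off, ln, A2, sg, h]
  · simp [edge, off, ln, A3, sg, h]

section
variable (hb : 0 < b) (hb2 : b ≤ 1 / 2)
include hb hb2

theorem O_ne_A1 : O b ≠ A1 := by
  intro h
  have h1 : Y b Real.pi = 0 := congrArg Prod.snd h
  have h2 := Y_strictMono hb hb2 Real.pi_pos
  rw [Y_zero hb hb2, h1] at h2
  exact lt_irrefl _ h2

theorem Y_pi_lt : Y b Real.pi < Y b (3 * Real.pi / 2) :=
  Y_strictMono hb hb2 (by have := Real.pi_pos; linarith)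

theorem O_ne_A2 : O b ≠ A2 b := by
  intro h
  rw [A2_eq] at h
  have h1 : Y b Real.pi = Y b (3 * Real.pi / 2) := congrArg Prod.snd h
  exact (Y_pi_lt hb hb2).ne h1

theorem O_ne_A3 : O b ≠ A3 b := by
  intro h
  rw [A3_eq] at h
  have h1 : Y b Real.pi = Y b (3 * Real.pi / 2) := congrArg Prod.snd h
  exact (Y_pi_lt hb hb2).ne h1

theorem A1_ne_A2 : A1 ≠ A2 b := by
  intro h
  rw [A2_eq] at h
  have h1 : 0 = -b := congrArg Prod.fst h
  linarith

theorem A1_ne_A3 : A1 ≠ A3 b := by
  intro h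
  rw [A3_eq] at h
  have h1 : 0 = b := congrArg Prod.fst h
  linarith

theorem A2_ne_A3 : A2 b ≠ A3 b := by
  intro h
  rw [A3_eq, A2_eq] at h
  have h1 : -b = b := congrArg Prod.fst h
  linarith

theorem edge_inj {e e' : Fin 4} {t t' : ℝ} (ht : t ∈ Icc 0 (ln e)) (ht' : t' ∈ Icc 0 (ln e'))
    (h : edge b e t = edge b e' t') :
    (e = e' ∧ t = t') ∨ ((t = 0 ∨ t = ln e) ∧ (t' = 0 ∨ t' = ln e')) := by
  have hpi := Real.pi_pos
  have h1 : Y b (t + off e) = Y b (t' + off e') := congrArg Prod.snd h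
  have h2 : t + off e = t' + off e' := (Y_strictMono hb hb2).injective h1
  have h3 : sg e * (b * Real.sin (t + off e)) = sg e' * (b * Real.sin (t' + off e')) :=
    congrArg Prod.fst h
  rw [← h2] at h3
  have hτ0 : 0 ≤ t + off e := add_nonneg ht.1 (off_nonneg e)
  have hτ1 := off_add e ht.2
  -- opposite signs
  have hsin : sg e ≠ sg e' → t + off e = 0 ∨ t + off e = Real.pi := by
    intro hne
    have h4 : (sg e - sg e') * (b * Real.sin (t + off e)) = 0 := by linarith
    have h5 : Real.sin (t + off e) = 0 := by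
      rcases mul_eq_zero.1 h4 with h | h
      · exact absurd (sub_eq_zero.1 h) hne
      · exact (mul_eq_zero.1 h).resolve_left hb.ne'
    rcases lt_trichotomy (t + off e) Real.pi with h6 | h6 | h6
    · rcases hτ0.eq_or_lt with h7 | h7
      · exact Or.inl h7.symm
      · exact absurd h5 (Real.sin_pos_of_pos_of_lt_pi h7 h6).ne'
    · exact Or.inr h6
    · have h8 : 0 < Real.sin (t + off e - Real.pi) :=
        Real.sin_pos_of_pos_of_lt_pi (by linarith) (by linarith)
      rw [Real.sin_sub_pi, h5] at h8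
      simp at h8
  obtain ⟨a1, a2⟩ := ht
  obtain ⟨b1, b2⟩ := ht'
  by_cases hee : e = e'
  · left
    subst hee
    exact ⟨rfl, by linarith⟩
  · right
    have hend : ∀ (f : Fin 4) (r : ℝ), 0 ≤ r → r ≤ ln f → (r + off f = 0 ∨ r + off f = Real.pi) →
        r = 0 ∨ r = ln f := by
      intro f r r0 r1 hr
      fin_cases f <;> simp [off, ln] at r1 hr ⊢
      · exact hr
      · exact hr
      · left
        rcases hr with hr | hr
        · linarith
        · exact hr
      · left
        rcases hr with hr | hr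
        · linarith
        · exact hr
    have hτ : t + off e = 0 ∨ t + off e = Real.pi := by
      by_cases hs : sg e = sg e'
      · right
        have hcase : (off e = 0 ∧ ln e = Real.pi ∧ off e' = Real.pi) ∨
            (off e' = 0 ∧ ln e' = Real.pi ∧ off e = Real.pi) := by
          fin_cases e <;> fin_cases e' <;> simp [sg, off, ln] at hee hs ⊢ <;> norm_num at hs
        rcases hcase with ⟨c1, c2, c3⟩ | ⟨c1, c2, c3⟩
        · rw [c1, add_zero, c3] at h2
          rw [c1, add_zero]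
          linarith
        · rw [c1, add_zero, c3] at h2
          rw [c3]
          linarith
      · exact hsin hs
    exact ⟨hend e t a1 a2 hτ, hend e' t' b1 b2 (h2 ▸ hτ)⟩

/-- Interior points of edges are not vertices. -/
theorem edge_interior {e : Fin 4} {t : ℝ} (ht : t ∈ Ioo 0 (ln e)) :
    edge b e t ≠ A1 ∧ edge b e t ≠ O b ∧ edge b e t ≠ A2 b ∧ edge b e t ≠ A3 b := by
  have hpi := Real.pi_pos
  have key : ∀ τ : ℝ, t + off e ≠ τ → (edge b e t).2 ≠ Y b τ := fun τ hτ h =>
    hτ ((Y_strictMono hb hb2).injective h)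
  have k0 : t + off e ≠ 0 := by
    have := off_nonneg e
    linarith [ht.1]
  have k1 : t + off e ≠ Real.pi := by
    obtain ⟨h1, h2⟩ := ht
    fin_cases e <;> simp [off, ln] at h2 ⊢ <;> linarith
  have k2 : t + off e ≠ 3 * Real.pi / 2 := by
    obtain ⟨h1, h2⟩ := ht
    fin_cases e <;> simp [off, ln] at h2 ⊢ <;> linarith
  refine ⟨fun h => key 0 k0 ?_, fun h => key _ k1 ?_, fun h => key _ k2 ?_, fun h => key _ k2 ?_⟩
  · rw [h, Y_zero hb hb2]; rfl
  · rw [h]; rfl
  · rw [h]; rfl
  · rw [h]; rfl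

theorem edge_geod (e : Fin 4) {t : ℝ} (ht : t ∈ Icc 0 (ln e)) (hκ : 0 ≤ 1 / (1 - b ^ 2)) :
    ZeroCurv.GeodAt (plane b (1 / (1 - b ^ 2)) hκ).E (plane b (1 / (1 - b ^ 2)) hκ).F
      (plane b (1 / (1 - b ^ 2)) hκ).G (edge b e) t :=
  GeodAt_shift (Gam_geod hb hb2 (sg_sq e)
    (Y_lt hb hb2 (add_nonneg ht.1 (off_nonneg e)) (off_add e ht.2)) hκ)

theorem edge_deriv (e : Fin 4) (t : ℝ) : deriv (edge b e) t = (sg e * (b * Real.cos (t + off e)),
    Real.sqrt (1 - b ^ 2) * (1 + 1 / (1 - b ^ 2) * (b * Real.sin (t + off e)) ^ 2)) := by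
  have h := deriv_comp_add_const (Gam b (sg e)) (off e) t
  exact h.trans (Gam_deriv hb hb2 (sg e) (t + off e)).deriv

/-- The net. -/
noncomputable def net (hκ : 0 ≤ 1 / (1 - b ^ 2)) :
    GeodesicNet (plane b (1 / (1 - b ^ 2)) hκ) where
  V := {A1, O b, A2 b, A3 b}
  finite := by simp
  U := {A1, A2 b, A3 b}
  sub := by
    intro x hx
    simp only [mem_insert_iff, mem_singleton_iff] at hx ⊢
    tauto
  n := 4
  c := edge b
  len := ln
  len_pos := ln_pos
  geod := fun e t ht => edge_geod hb hb2 e ht hκ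
  start_mem := by
    intro e
    rw [edge_start]
    fin_cases e <;> simp
  end_mem := by
    intro e
    rw [edge_end]
    fin_cases e <;> simp
  interior := by
    intro e t ht
    have := edge_interior hb hb2 ht
    simp only [mem_insert_iff, mem_singleton_iff]
    tauto
  embedded := fun e e' t ht t' ht' h => edge_inj hb hb2 ht ht' h
  connected := by
    set R : ℝ × ℝ → ℝ × ℝ → Prop := fun a c => ∃ e : Fin 4,
      (edge b e 0 = a ∧ edge b e (ln e) = c) ∨ (edge b e 0 = c ∧ edge b e (ln e) = a) with hR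
    have h1 : ∀ v ∈ ({A1, O b, A2 b, A3 b} : Set (ℝ × ℝ)), Relation.ReflTransGen R v (O b) := by
      intro v hv
      simp only [mem_insert_iff, mem_singleton_iff] at hv
      rcases hv with rfl | rfl | rfl | rfl
      · exact Relation.ReflTransGen.single ⟨0, Or.inl ⟨by rw [edge_start]; rfl,
          by rw [edge_end]; rfl⟩⟩
      · exact Relation.ReflTransGen.refl
      · exact Relation.ReflTransGen.single ⟨2, Or.inr ⟨by rw [edge_start]; rfl,
          by rw [edge_end]; rfl⟩⟩
      · exact Relation.ReflTransGen.single ⟨3, Or.inr ⟨by rw [edge_start]; rfl,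
          by rw [edge_end]; rfl⟩⟩
    have h2 : ∀ v ∈ ({A1, O b, A2 b, A3 b} : Set (ℝ × ℝ)), Relation.ReflTransGen R (O b) v := by
      intro v hv
      simp only [mem_insert_iff, mem_singleton_iff] at hv
      rcases hv with rfl | rfl | rfl | rfl
      · exact Relation.ReflTransGen.single ⟨0, Or.inr ⟨by rw [edge_start]; rfl,
          by rw [edge_end]; rfl⟩⟩
      · exact Relation.ReflTransGen.refl
      · exact Relation.ReflTransGen.single ⟨2, Or.inl ⟨by rw [edge_start]; rfl,
          by rw [edge_end]; rfl⟩⟩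
      · exact Relation.ReflTransGen.single ⟨3, Or.inl ⟨by rw [edge_start]; rfl,
          by rw [edge_end]; rfl⟩⟩
    intro v hv w hw
    exact (h1 v hv).trans (h2 w hw)
  degree := by
    rintro v ⟨hv, hv'⟩
    have hvO : v = O b := by
      simp only [mem_insert_iff, mem_singleton_iff] at hv hv'
      tauto
    subst hvO
    have h1 : {e : Fin 4 | edge b e 0 = O b} = {2, 3} := by
      ext e
      rw [mem_ofPred_eq, edge_start]
      fin_cases e <;> simp [(O_ne_A1 hb hb2).symm]
    have h2 : {e : Fin 4 | edge b e (ln e) = O b} = {0, 1} := by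
      ext e
      rw [mem_ofPred_eq, edge_end]
      fin_cases e <;> simp [(O_ne_A2 hb hb2).symm, (O_ne_A3 hb hb2).symm]
    rw [h1, h2, Set.ncard_pair (by decide), Set.ncard_pair (by decide)]
    norm_num
  balanced := by
    rintro v ⟨hv, hv'⟩
    have hvO : v = O b := by
      simp only [mem_insert_iff, mem_singleton_iff] at hv hv'
      tauto
    subst hvO
    have h1 : {e : Fin 4 | edge b e 0 = O b} = {2, 3} := by
      ext e
      rw [mem_ofPred_eq, edge_start]
      fin_cases e <;> simp [(O_ne_A1 hb hb2).symm]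
    have h2 : {e : Fin 4 | edge b e (ln e) = O b} = {0, 1} := by
      ext e
      rw [mem_ofPred_eq, edge_end]
      fin_cases e <;> simp [(O_ne_A2 hb hb2).symm, (O_ne_A3 hb hb2).symm]
    rw [h1, h2, Fin.sum_univ_four]
    simp only [edge_deriv hb hb2]
    simp [Set.indicator, sg, off, ln]
  no_unbalanced_edge := by
    intro e
    rw [edge_start, edge_end]
    have e1 := O_ne_A1 hb hb2
    have e2 := O_ne_A2 hb hb2
    have e3 := O_ne_A3 hb hb2
    fin_cases e <;> simp [e1, e2, e3]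

theorem net_three (hκ : 0 ≤ 1 / (1 - b ^ 2)) : (net hb hb2 hκ).U.ncard = 3 := by
  change ({A1, A2 b, A3 b} : Set (ℝ × ℝ)).ncard = 3
  rw [Set.ncard_eq_three]
  exact ⟨A1, A2 b, A3 b, A1_ne_A2 hb hb2, A1_ne_A3 hb hb2, A2_ne_A3 hb hb2, rfl⟩

theorem net_not_tripod (hκ : 0 ≤ 1 / (1 - b ^ 2)) : ¬ (net hb hb2 hκ).IsTripod := by
  rintro ⟨O', -, h, -⟩
  change 4 = 3 at h
  omega
end

/-- The main result. -/
theorem main (ε : ℝ) (hε : 0 < ε) : ∃ g : RPlane, g.BoundedBelow ∧
    g.totalPosCurv < ENNReal.ofReal ε ∧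
      ∃ N : GeodesicNet g, N.U.ncard = 3 ∧ ¬ N.IsTripod := by
  obtain ⟨M, hM, hMb⟩ := chi_bounds
  set b : ℝ := min (1 / 2) (ε / (1024 * M ^ 2)) with hbdef
  have hb : 0 < b := by positivity
  have hb2 : b ≤ 1 / 2 := min_le_left _ _
  have hb3 : b ≤ ε / (1024 * M ^ 2) := min_le_right _ _
  have hc := c_pos hb hb2
  have hκ : 0 ≤ 1 / (1 - b ^ 2) := by positivity
  have hκ2 : 1 / (1 - b ^ 2) ≤ 2 := by
    rw [div_le_iff₀ hc]
    nlinarith
  refine ⟨plane b (1 / (1 - b ^ 2)) hκ, boundedBelow hb hκ hκ2 hM hMb, ?_, net hb hb2 hκ,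
    net_three hb hb2 hκ, net_not_tripod hb hb2 hκ⟩
  refine lt_of_le_of_lt (totalPosCurv_le hb hκ hκ2 hM hMb) ?_
  rw [ENNReal.ofReal_lt_ofReal_iff hε]
  have h1 : b * (1024 * M ^ 2) ≤ ε := by
    rwa [le_div_iff₀ (by positivity)] at hb3
  nlinarith [mul_pos hb (pow_pos hM 2)]

end Q195.Tripod
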